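import Pool.Agent.Zk35.SD.Circuit

set_option autoImplicit false

namespace Pool.Agent.Zk49.MM

open Pool.Agent.Zk35.SD
open Pool.Agent.Zk35.SY (Entries act)

universe u

/-- The `n ^ 2` entries of the product are computed by different gates. -/
theorem sq_le_card {K : Type u} [Field K] {n : ℕ} {ι : Type} [Fintype ι]
    (C : Circuit K (Entries (Fin n) (Fin n) (Fin n)) ι) (out : Fin n → Fin n → ι)
    (h : Computes C out) : n ^ 2 ≤ Fintype.card ι := by
  classical
  have hinj : Function.Injective (fun p : Fin n × Fin n => out p.1 p.2) := by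
    rintro ⟨i, j⟩ ⟨i', j'⟩ hij
    have hij' : out i j = out i' j' := hij
    have h1 := h i j
    rw [hij', h i' j'] at h1
    have h2 : (∑ k : Fin n, MvPolynomial.X (Sum.inl (i', k)) * MvPolynomial.X (Sum.inr (k, j')) :
        MvPolynomial (Entries (Fin n) (Fin n) (Fin n)) K) =
        ∑ k : Fin n, MvPolynomial.X (Sum.inl (i, k)) * MvPolynomial.X (Sum.inr (k, j)) := by
      apply IsFractionRing.injective (MvPolynomial (Entries (Fin n) (Fin n) (Fin n)) K)
        (Rat K (Entries (Fin n) (Fin n) (Fin n)))
      rw [map_sum, map_sum]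
      simp only [map_mul]
      exact h1
    have h3 := congrArg (MvPolynomial.eval (fun e : Entries (Fin n) (Fin n) (Fin n) =>
      Sum.elim (fun p : Fin n × Fin n => if p.1 = i then (1 : K) else 0)
        (fun p : Fin n × Fin n => if p.1 = i ∧ p.2 = j then (1 : K) else 0) e)) h2
    simp only [map_sum, map_mul, MvPolynomial.eval_X, Sum.elim_inl, Sum.elim_inr] at h3
    by_contra hne
    have h4 : ∀ k : Fin n, (if i' = i then (1 : K) else 0) *
        (if k = i ∧ j' = j then (1 : K) else 0) = 0 := by
      intro k
      by_cases h5 : i' = i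
      · by_cases h6 : j' = j
        · exact absurd (by rw [h5, h6]) hne
        · simp [h6]
      · simp [h5]
    rw [Finset.sum_eq_zero (fun k _ => h4 k), Finset.sum_eq_single i (by
      intro k _ hk
      simp [hk]) (by simp)] at h3
    simp at h3
  have h7 := Fintype.card_le_of_injective _ hinj
  rw [Fintype.card_prod, Fintype.card_fin] at h7
  rw [sq]
  exact h7

end Pool.Agent.Zk49.MM
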